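import Pool.Agent.H51.EI.TargetsB

/-! Board exi_modules, row SEP. -/

set_option autoImplicit false

open Polynomial Finset

namespace Pool.Agent.H92.EI.SEP

open Pool.Agent.H51.EI
open Pool.Agent.H25.EE (Idx Ix mlt nd s0 s1 hn EX exo gt GG VJ thr phi bN bH)

private theorem core (hSEPG : T_SEPG) (κ1 κ2 A : ℂ) (hA : A ≠ 0) (C : ℝ) (hC : 0 ≤ C) (σ : ℚ)
    (hσ : 0 < σ) (hσ1 : σ ≤ 1 / 100)
    (hs : ∀ m n : ℤ, (m ≠ 0 ∨ n ≠ 0) →
    Real.exp (-(C * (|(m : ℝ)| + |(n : ℝ)|) * Real.log (|(m : ℝ)| + |(n : ℝ)| + 1))) ≤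
      ‖(m : ℂ) * κ1 + n * κ2‖) (ε : ℝ) (hε : 0 < ε) :
    ∃ J0 : ℕ, ∀ J ≥ J0, ∀ x ∈ nd J,
    Real.exp ((1 - ε) * (Ix σ J).card * Real.log J) ≤
    ∏ y ∈ (nd J).erase x, ‖((x.1 : ℂ) * κ1 + x.2 * κ2) / A -
      ((y.1 : ℂ) * κ1 + y.2 * κ2) / A‖ ^ mlt σ J y := by
  obtain ⟨J0, hJ0⟩ := hSEPG κ1 κ2 C σ hC hσ hσ1 hs (ε / 2) (by linarith)
  set M : ℝ := max 1 ‖A‖ with hM
  have hM1 : 1 ≤ M := le_max_left _ _
  have hM0 : 0 < M := by linarith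
  have hAM : ‖A‖ ≤ M := le_max_right _ _
  have hApos : 0 < ‖A‖ := norm_pos_iff.2 hA
  -- large `J`
  have hev : ∀ᶠ J : ℕ in Filter.atTop, Real.log M ≤ ε / 2 * Real.log (J : ℝ) := by
    have h1 : Filter.Tendsto (fun J : ℕ => ε / 2 * Real.log (J : ℝ)) Filter.atTop
        Filter.atTop :=
      Filter.Tendsto.const_mul_atTop (by linarith)
        (Real.tendsto_log_atTop.comp tendsto_natCast_atTop_atTop)
    exact h1.eventually (Filter.eventually_ge_atTop _)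
  obtain ⟨J1, hJ1⟩ := Filter.eventually_atTop.1 hev
  refine ⟨max J0 J1, fun J hJ x hx => ?_⟩
  have h1 := hJ0 J (le_trans (le_max_left _ _) hJ) x hx
  have h2 := hJ1 J (le_trans (le_max_right _ _) hJ)
  have hprod : ∏ y ∈ (nd J).erase x, ‖((x.1 : ℂ) * κ1 + x.2 * κ2) / A -
      ((y.1 : ℂ) * κ1 + y.2 * κ2) / A‖ ^ mlt σ J y =
      (∏ y ∈ (nd J).erase x, ‖((x.1 : ℂ) * κ1 + x.2 * κ2) -
      ((y.1 : ℂ) * κ1 + y.2 * κ2)‖ ^ mlt σ J y) / ‖A‖ ^ (∑ y ∈ (nd J).erase x, mlt σ J y) := by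
    rw [← Finset.prod_pow_eq_pow_sum, ← Finset.prod_div_distrib]
    refine Finset.prod_congr rfl fun y _ => ?_
    rw [← sub_div, norm_div, div_pow]
  have hcard : ∑ y ∈ (nd J).erase x, mlt σ J y ≤ (Ix σ J).card := by
    have : (Ix σ J).card = ∑ y ∈ nd J, mlt σ J y := by
      simp [Ix, Finset.card_sigma]
    rw [this]
    exact Finset.sum_le_sum_of_subset (Finset.erase_subset _ _)
  have hpow : ‖A‖ ^ (∑ y ∈ (nd J).erase x, mlt σ J y) ≤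
      Real.exp ((Ix σ J).card * Real.log M) := by
    calc ‖A‖ ^ (∑ y ∈ (nd J).erase x, mlt σ J y)
        ≤ M ^ (∑ y ∈ (nd J).erase x, mlt σ J y) := pow_le_pow_left₀ (norm_nonneg _) hAM _
      _ ≤ M ^ (Ix σ J).card := pow_le_pow_right₀ hM1 hcard
      _ = Real.exp ((Ix σ J).card * Real.log M) := by
          rw [Real.exp_nat_mul, Real.exp_log hM0]
  have hppos : 0 < ‖A‖ ^ (∑ y ∈ (nd J).erase x, mlt σ J y) := pow_pos hApos _
  rw [hprod, le_div_iff₀ hppos]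
  refine le_trans ?_ h1
  calc Real.exp ((1 - ε) * (Ix σ J).card * Real.log J) * ‖A‖ ^ (∑ y ∈ (nd J).erase x, mlt σ J y)
      ≤ Real.exp ((1 - ε) * (Ix σ J).card * Real.log J) *
        Real.exp ((Ix σ J).card * Real.log M) :=
        mul_le_mul_of_nonneg_left hpow (Real.exp_pos _).le
    _ = Real.exp ((1 - ε) * (Ix σ J).card * Real.log J + (Ix σ J).card * Real.log M) := by
        rw [Real.exp_add]
    _ ≤ Real.exp ((1 - ε / 2) * (Ix σ J).card * Real.log J) := by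
        apply Real.exp_le_exp.2
        have h3 : ((Ix σ J).card : ℝ) * Real.log M ≤
            (Ix σ J).card * (ε / 2 * Real.log (J : ℝ)) :=
          mul_le_mul_of_nonneg_left h2 (Nat.cast_nonneg _)
        nlinarith

theorem pf_SEP (hSEPG : T_SEPG) (_hCARD : T_CARD) : T_SEP := by
  intro O X0 π σ hσ ε hε
  have hq1 : 1 ≤ qq π := Nat.one_le_pow _ _ π.hr
  have hqQ : (1 : ℚ) ≤ (qq π : ℚ) := by exact_mod_cast hq1
  have hq0 : (0 : ℚ) < (qq π : ℚ) := by linarith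
  have hσ0 : 0 < σ := by
    rcases hσ with h | h
    · rw [h]; unfold t0 s0; positivity
    · rw [h]; unfold t1 s1; positivity
  have hσ1 : σ ≤ 1 / 100 := by
    rcases hσ with h | h
    · rw [h]; unfold t0 s0
      rw [div_le_iff₀ hq0]; linarith
    · rw [h]; unfold t1 s1
      rw [div_le_iff₀ hq0]; linarith
  obtain ⟨J0, hJ0⟩ := core hSEPG (ev (π.x 0) X0) (ev (π.x 1) X0) (ev π.B X0) π.hB π.C π.hC σ
    hσ0 hσ1 π.hsx ε hε
  obtain ⟨J1, hJ1⟩ := core hSEPG (ev (π.y 0) X0) (ev (π.y 1) X0) (ev π.A X0) π.hA π.C π.hC σ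
    hσ0 hσ1 π.hsy ε hε
  exact ⟨max J0 J1, fun J hJ x hx => ⟨hJ0 J (le_trans (le_max_left _ _) hJ) x hx,
    hJ1 J (le_trans (le_max_right _ _) hJ) x hx⟩⟩

end Pool.Agent.H92.EI.SEP
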